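import Pool.Agent.KS6_49.BO.BernOp

/-!
# Bernstein operators on 4-algebras: the dimensions

Every 4-algebra of dimension at most four has a Bernstein operator, in every dimension `≥ 7` there
is a 4-algebra without one, and in every dimension `≥ 4` there is a 4-algebra with more than `n + 1`
classes of Bernstein operators (infinitely many if `n ≥ 5`).
-/

set_option autoImplicit false

namespace Pool.Agent.Results.MP_be8152_al.DimensionRange

open Module

section defs

variable {k : Type*} [Field k] {V : Type*} [AddCommGroup V] [Module k V]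

/-- `m` is the product of a 4-algebra on `V`: it is commutative and `(x²)² = 0`. -/
def IsFourAlgebra (m : V →ₗ[k] V →ₗ[k] V) : Prop :=
  (∀ x y, m x y = m y x) ∧ ∀ x, m (m x x) (m x x) = 0

/-- `x² · Ω(x) = 0` and `Ω(x)² + Ω(x²) = x²` for all `x`. -/
def QuadraticIdentities (m : V →ₗ[k] V →ₗ[k] V) (Ω : V →ₗ[k] V) : Prop :=
  ∀ x, m (m x x) (Ω x) = 0 ∧ m (Ω x) (Ω x) + Ω (m x x) = m x x

/-- `Ω` is a Bernstein operator: `Ω² = Ω`, `x² · Ω(x) = 0` and `Ω(x)² + Ω(x²) = x²`. -/
def IsBernstein (m : V →ₗ[k] V →ₗ[k] V) (Ω : V →ₗ[k] V) : Prop :=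
  (∀ x, Ω (Ω x) = Ω x) ∧ QuadraticIdentities m Ω

/-- `Ω ≈ Ω'`: for some automorphism `f` of the algebra and some `v₀` one has
`Ω'(x) = f(Ω(f⁻¹(x))) - 2 x · v₀` for all `x`, and `Ω'(v₀) = v₀ - v₀²`. -/
def Equivalent (m : V →ₗ[k] V →ₗ[k] V) (Ω Ω' : V →ₗ[k] V) : Prop :=
  ∃ f : V ≃ₗ[k] V, (∀ x y, f (m x y) = m (f x) (f y)) ∧
    ∃ v₀ : V, (∀ x, Ω' x = f (Ω (f.symm x)) - (2 : k) • m x v₀) ∧ Ω' v₀ = v₀ - m v₀ v₀

end defs

/-! ### Existence in dimension at most four -/

section exist

variable {k : Type*} [Field k] {V : Type*} [AddCommGroup V] [Module k V]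
  {m : V →ₗ[k] V →ₗ[k] V}

theorem id_even (h2 : (2 : k) ≠ 0) (hm : IsFourAlgebra m) (hq : ∀ x y, m (m x x) (m x y) = 0)
    (x y : V) : (2 : k) • m (m x y) (m x y) + m (m x x) (m y y) = 0 := by
  have h := hm.2 (x + y)
  have h1 := hm.2 x
  have h3 := hm.2 y
  have h4 := hq x y
  have h5 := hq y x
  rw [hm.1 y x] at h5
  simp only [map_add, LinearMap.add_apply, hm.1 y x, h1, h3, h4, h5, hm.1 (m x y) (m x x),
    hm.1 (m x y) (m y y), hm.1 (m y y) (m x x), add_zero, zero_add] at h
  apply smul_right_injective V h2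
  simp only [smul_zero, smul_add, smul_smul]
  have h6 : (2 * 2 : k) • m (m x y) (m x y) = m (m x y) (m x y) + m (m x y) (m x y) +
      m (m x y) (m x y) + m (m x y) (m x y) := by
    module
  have h7 : (2 : k) • m (m x x) (m y y) = m (m x x) (m y y) + m (m x x) (m y y) := by module
  rw [h6, h7, ← h]
  abel

theorem id_odd [Infinite k] (h2 : (2 : k) ≠ 0) (hm : IsFourAlgebra m) (x y : V) :
    m (m x x) (m x y) = 0 := by
  have key : ∀ t : k, t • m (m x x) (m x y) + (t ^ 3) • m (m y y) (m x y) = 0 := by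
    intro t
    have h := hm.2 (x + t • y)
    have h' := hm.2 (x - t • y)
    have h1 := hm.2 x
    have h3 := hm.2 y
    simp only [map_add, map_sub, LinearMap.add_apply, LinearMap.sub_apply, map_smul,
      LinearMap.smul_apply, hm.1 y x, h1, h3, hm.1 (m x y) (m x x),
      hm.1 (m x y) (m y y), hm.1 (m y y) (m x x), add_zero, zero_add, smul_zero] at h h'
    apply smul_right_injective V (mul_ne_zero h2 (mul_ne_zero h2 h2))
    simp only [smul_zero]
    have h4 := congrArg₂ (· - ·) h h'
    simp only [sub_zero] at h4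
    rw [← h4]
    module
  obtain ⟨t, ht⟩ : ∃ t : k, t ^ 3 - t ≠ 0 := by
    by_contra hcon
    push Not at hcon
    have h1 : (Polynomial.X ^ 3 - Polynomial.X : Polynomial k) = 0 := by
      apply Polynomial.funext
      intro r
      simpa using hcon r
    have h3 := congrArg (fun p => Polynomial.coeff p 3) h1
    simp [Polynomial.coeff_X] at h3
  have h1 := key 1
  have h3 := key t
  rw [one_smul, one_pow, one_smul] at h1
  have h4 : (t ^ 3 - t) • m (m x x) (m x y) = 0 := by
    have h5 : m (m y y) (m x y) = - m (m x x) (m x y) := by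
      rw [eq_neg_iff_add_eq_zero, add_comm]; exact h1
    rw [h5] at h3
    have : (t ^ 3 - t) • m (m x x) (m x y) =
        -(t • m (m x x) (m x y) + (t ^ 3) • -m (m x x) (m x y)) := by module
    rw [this, h3, neg_zero]
  exact (smul_eq_zero.1 h4).resolve_left ht

theorem id_lin (h2 : (2 : k) ≠ 0) (hm : IsFourAlgebra m)
    (he : ∀ x y, (2 : k) • m (m x y) (m x y) + m (m x x) (m y y) = 0) (a b c : V) :
    (2 : k) • m (m a b) (m a c) + m (m a a) (m b c) = 0 := by
  have h := he a (b + c)
  have h1 := he a b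
  have h3 := he a c
  simp only [map_add, LinearMap.add_apply, hm.1 c b, hm.1 (m a c) (m a b), smul_add] at h
  apply smul_right_injective V h2
  simp only [smul_zero]
  have h4 : (2 : k) • ((2 : k) • m (m a b) (m a c) + m (m a a) (m b c)) =
      ((2 : k) • m (m a b) (m a b) + (2 : k) • m (m a b) (m a c) +
        ((2 : k) • m (m a b) (m a c) + (2 : k) • m (m a c) (m a c)) +
        (m (m a a) (m b b) + m (m a a) (m b c) + (m (m a a) (m b c) + m (m a a) (m c c)))) -
      ((2 : k) • m (m a b) (m a b) + m (m a a) (m b b)) -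
      ((2 : k) • m (m a c) (m a c) + m (m a a) (m c c)) := by module
  rw [h4, h, h1, h3]
  simp

/-- The main step: dimension at most four. -/
theorem step [FiniteDimensional k V] (h2 : (2 : k) ≠ 0) (hm : IsFourAlgebra m)
    (ho : ∀ x y, m (m x x) (m x y) = 0)
    (hl : ∀ a b c, (2 : k) • m (m a b) (m a c) + m (m a a) (m b c) = 0)
    (hV : finrank k V ≤ 4) (x y : V) (hz : m (m x y) (m x y) ≠ 0)
    (hx : x ∈ Submodule.span k {m x x, m x y, m y y}) : False := by
  set e2 := m x x with he2
  set e3 := m x y with he3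
  set e4 := m y y with he4
  set z := m e3 e3 with hzz
  have m22 : m e2 e2 = 0 := hm.2 x
  have m44 : m e4 e4 = 0 := hm.2 y
  have m23 : m e2 e3 = 0 := ho x y
  have m43 : m e4 e3 = 0 := by
    have := ho y x
    rwa [hm.1 y x] at this
  have m24 : m e2 e4 = -((2 : k) • z) := by
    have := hl x y y
    rw [← he3, ← hzz] at this
    rw [eq_neg_iff_add_eq_zero, add_comm]
    exact this
  have m32 : m e3 e2 = 0 := by rw [hm.1, m23]
  have m34 : m e3 e4 = 0 := by rw [hm.1, m43]
  have m42 : m e4 e2 = -((2 : k) • z) := by rw [hm.1, m24]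
  obtain ⟨c2, c3, c4, hc⟩ : ∃ c2 c3 c4 : k, x = c2 • e2 + c3 • e3 + c4 • e4 := by
    rw [Submodule.mem_span_insert] at hx
    obtain ⟨a, u, hu, hxu⟩ := hx
    rw [Submodule.mem_span_pair] at hu
    obtain ⟨b, c, hbc⟩ := hu
    exact ⟨a, b, c, by rw [hxu, ← hbc, add_assoc]⟩
  have hd : e2 = (c3 ^ 2 - 2 * 2 * c2 * c4) • z := by
    have h1 : e2 = m (c2 • e2 + c3 • e3 + c4 • e4) (c2 • e2 + c3 • e3 + c4 • e4) := by
      rw [← hc]
    rw [h1]
    simp only [map_add, LinearMap.add_apply, map_smul, LinearMap.smul_apply, m22, m23, m24, m32,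
      m34, m42, m43, m44, smul_zero, add_zero, zero_add]
    rw [← hzz]
    module
  set δ := c3 ^ 2 - 2 * 2 * c2 * c4 with hδ
  have hz4 : m e4 z ≠ 0 := by
    intro h
    have h1 : m e4 e2 = 0 := by rw [hd, map_smul, h, smul_zero]
    rw [m42, neg_eq_zero, smul_eq_zero] at h1
    exact h1.elim h2 hz
  -- the form on the span is nondegenerate
  have hker : ∀ b2 b3 b4 : k, (∀ c, m e4 (m (b2 • e2 + b3 • e3 + b4 • e4) c) = 0) →
      b2 = 0 ∧ b3 = 0 ∧ b4 = 0 := by
    intro b2 b3 b4 h
    have k1 := h e2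
    have k2 := h e3
    have k3 := h e4
    simp only [map_add, LinearMap.add_apply, map_smul, LinearMap.smul_apply, m22, m23, m24, m32,
      m34, m42, m43, m44, smul_zero, add_zero, zero_add, map_neg, smul_neg, neg_eq_zero,
      smul_eq_zero, map_zero] at k1 k2 k3
    rw [← hzz] at k2
    refine ⟨?_, ?_, ?_⟩
    · exact k3.resolve_right (fun h => h.elim h2 hz4)
    · exact k2.resolve_right hz4
    · exact k1.resolve_right (fun h => h.elim h2 hz4)
  let L : (Fin 3 → k) →ₗ[k] V := Fintype.linearCombination k ![e2, e3, e4]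
  have hL : ∀ b : Fin 3 → k, L b = b 0 • e2 + b 1 • e3 + b 2 • e4 := by
    intro b
    simp [L, Fintype.linearCombination_apply, Fin.sum_univ_three]
  have hLin : Function.Injective ((m y).comp L) := by
    rw [← LinearMap.ker_eq_bot, LinearMap.ker_eq_bot']
    intro b hb
    rw [LinearMap.comp_apply, hL] at hb
    have h1 := hker (b 0) (b 1) (b 2) (by
      intro c
      have h3 := hl y (b 0 • e2 + b 1 • e3 + b 2 • e4) c
      rw [hb, map_zero, LinearMap.zero_apply, smul_zero, zero_add] at h3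
      exact h3)
    ext i
    fin_cases i
    · exact h1.1
    · exact h1.2.1
    · exact h1.2.2
  have hle : LinearMap.range ((m y).comp L) ≤ LinearMap.ker (m e4) := by
    rintro _ ⟨b, rfl⟩
    rw [LinearMap.mem_ker, LinearMap.comp_apply]
    exact ho y _
  have hfr : finrank k (LinearMap.range ((m y).comp L)) = 3 := by
    rw [LinearMap.finrank_range_of_inj hLin]
    simp
  have hfk : finrank k (LinearMap.ker (m e4)) ≤ 3 := by
    have h1 := LinearMap.finrank_range_add_finrank_ker (m e4)
    have h3 : 0 < finrank k (LinearMap.range (m e4)) := by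
      rw [Module.finrank_pos_iff_exists_ne_zero]
      refine ⟨⟨m e4 z, z, rfl⟩, ?_⟩
      intro h
      apply hz4
      exact congrArg Subtype.val h
    omega
  have heq := Submodule.eq_of_le_of_finrank_le hle (by omega)
  have hmem : e4 ∈ LinearMap.range ((m y).comp L) := by
    rw [heq, LinearMap.mem_ker]
    exact m44
  obtain ⟨b, hb⟩ := hmem
  rw [LinearMap.comp_apply] at hb
  have h3 := hker (b 0) (b 1) (b 2) (by
    intro c
    rw [← hL]
    have h5 := hl y (y - L b) c
    rw [map_sub, hb, ← he4, sub_self, map_zero, LinearMap.zero_apply, smul_zero, zero_add, map_sub,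
      LinearMap.sub_apply, map_sub, ho y c, zero_sub, neg_eq_zero] at h5
    exact h5)
  have h4 : L b = 0 := by
    rw [hL, h3.1, h3.2.1, h3.2.2]
    simp
  rw [h4, map_zero] at hb
  apply hz4
  rw [← hb, map_zero, LinearMap.zero_apply]

theorem sq_zero [FiniteDimensional k V] (h2 : (2 : k) ≠ 0) (hm : IsFourAlgebra m)
    (ho : ∀ x y, m (m x x) (m x y) = 0)
    (hl : ∀ a b c, (2 : k) • m (m a b) (m a c) + m (m a a) (m b c) = 0)
    (hV : finrank k V ≤ 4) (x y : V) : m (m x y) (m x y) = 0 := by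
  by_contra hz
  have m22 : m (m x x) (m x x) = 0 := hm.2 x
  have m44 : m (m y y) (m y y) = 0 := hm.2 y
  have m23 : m (m x x) (m x y) = 0 := ho x y
  have m43 : m (m y y) (m x y) = 0 := by
    have := ho y x
    rwa [hm.1 y x] at this
  have m24 : m (m x x) (m y y) = -((2 : k) • m (m x y) (m x y)) := by
    have := hl x y y
    rw [eq_neg_iff_add_eq_zero, add_comm]
    exact this
  have m32 : m (m x y) (m x x) = 0 := by rw [hm.1, m23]
  have m34 : m (m x y) (m y y) = 0 := by rw [hm.1, m43]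
  have m42 : m (m y y) (m x x) = -((2 : k) • m (m x y) (m x y)) := by rw [hm.1, m24]
  let L : (Fin 5 → k) →ₗ[k] V := Fintype.linearCombination k ![x, y, m x x, m x y, m y y]
  have hL : ∀ b : Fin 5 → k, L b = b 0 • x + b 1 • y + b 2 • m x x + b 3 • m x y +
      b 4 • m y y := by
    intro b
    simp [L, Fintype.linearCombination_apply, Fin.sum_univ_five]
  have hker : LinearMap.ker L ≠ ⊥ := by
    apply LinearMap.ker_ne_bot_of_finrank_lt
    simp
    omega
  obtain ⟨b, hb, hb0⟩ := (Submodule.ne_bot_iff _).1 hker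
  rw [LinearMap.mem_ker, hL] at hb
  by_cases h0 : b 0 = 0
  · by_cases h1 : b 1 = 0
    · apply hb0
      rw [h0, h1, zero_smul, zero_smul, zero_add, zero_add] at hb
      have k1 := congrArg (m (m x x)) hb
      have k2 := congrArg (m (m x y)) hb
      have k3 := congrArg (m (m y y)) hb
      simp only [map_add, map_smul, m22, m23, m24, m32,
        m34, m42, m43, m44, smul_zero, add_zero, zero_add, map_neg, smul_neg, neg_eq_zero,
        smul_eq_zero, map_zero, h2, hz, or_false, false_or] at k1 k2 k3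
      ext i
      fin_cases i
      · exact h0
      · exact h1
      · exact k3
      · exact k2
      · exact k1
    · -- `y` is a combination
      refine step h2 hm ho hl hV (b 0 • x + b 1 • y) x ?_ ?_
      · rw [h0, zero_smul, zero_add]
        simp only [map_smul, LinearMap.smul_apply, hm.1 y x, ne_eq, smul_eq_zero, h1, hz, or_self,
          not_false_eq_true]
      · rw [h0, zero_smul, zero_add] at hb ⊢
        simp only [map_smul, LinearMap.smul_apply, hm.1 y x]
        set S := Submodule.span k {b 1 • b 1 • m y y, b 1 • m x y, m x x} with hS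
        have s1 : m y y ∈ S := by
          have : b 1 • b 1 • m y y ∈ S := Submodule.subset_span (by simp)
          rwa [Submodule.smul_mem_iff _ h1, Submodule.smul_mem_iff _ h1] at this
        have s2 : m x y ∈ S := by
          have : b 1 • m x y ∈ S := Submodule.subset_span (by simp)
          rwa [Submodule.smul_mem_iff _ h1] at this
        have s3 : m x x ∈ S := Submodule.subset_span (by simp)
        have : b 1 • y = -(b 2 • m x x + b 3 • m x y + b 4 • m y y) := by
          rw [eq_neg_iff_add_eq_zero, ← hb]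
          abel
        rw [this]
        exact S.neg_mem (S.add_mem (S.add_mem (S.smul_mem _ s3) (S.smul_mem _ s2))
          (S.smul_mem _ s1))
  · refine step h2 hm ho hl hV (b 0 • x + b 1 • y) y ?_ ?_
    · simp only [map_add, map_smul, LinearMap.smul_apply, LinearMap.add_apply, m34, m43, m44,
        smul_zero, add_zero, ne_eq, smul_eq_zero, h0, hz, or_self, not_false_eq_true]
    · set X := b 0 • x + b 1 • y with hX
      set S := Submodule.span k {m X X, m X y, m y y} with hS
      have s1 : m y y ∈ S := Submodule.subset_span (by simp)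
      have s2 : m x y ∈ S := by
        have h3 : m X y ∈ S := Submodule.subset_span (by simp)
        have h4 : b 0 • m x y = m X y - b 1 • m y y := by
          rw [hX]
          simp only [map_add, map_smul, LinearMap.smul_apply, LinearMap.add_apply]
          abel
        rw [← Submodule.smul_mem_iff S h0, h4]
        exact S.sub_mem h3 (S.smul_mem _ s1)
      have s3 : m x x ∈ S := by
        have h3 : m X X ∈ S := Submodule.subset_span (by simp)
        have h4 : b 0 • b 0 • m x x = m X X - (2 * b 0 * b 1) • m x y - (b 1 * b 1) • m y y := by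
          rw [hX]
          simp only [map_add, map_smul, LinearMap.smul_apply, LinearMap.add_apply, hm.1 y x]
          module
        rw [← Submodule.smul_mem_iff S h0, ← Submodule.smul_mem_iff S h0, h4]
        exact S.sub_mem (S.sub_mem h3 (S.smul_mem _ s2)) (S.smul_mem _ s1)
      have : X = -(b 2 • m x x + b 3 • m x y + b 4 • m y y) := by
        rw [eq_neg_iff_add_eq_zero, ← hb, hX]
        abel
      rw [this]
      exact S.neg_mem (S.add_mem (S.add_mem (S.smul_mem _ s3) (S.smul_mem _ s2))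
        (S.smul_mem _ s1))

/-- a 4-algebra with `(V²)² = 0` has a Bernstein operator -/
theorem exists_of_sq_zero (hprod : ∀ a b c d, m (m a b) (m c d) = 0) :
    ∃ Ω, IsBernstein m Ω := by
  set Z : Submodule k V := Submodule.span k (Set.range fun p : V × V => m p.1 p.2) with hZ
  have hZZ : ∀ u ∈ Z, ∀ v ∈ Z, m u v = 0 := by
    intro u hu v hv
    induction hu using Submodule.span_induction with
    | mem u hu =>
      obtain ⟨p, rfl⟩ := hu
      induction hv using Submodule.span_induction with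
      | mem v hv =>
        obtain ⟨q, rfl⟩ := hv
        exact hprod _ _ _ _
      | zero => rw [map_zero]
      | add v w _ _ h1 h2 => rw [map_add, h1, h2, add_zero]
      | smul c v _ h1 => rw [map_smul, h1, smul_zero]
    | zero => rw [map_zero, LinearMap.zero_apply]
    | add v w _ _ h1 h2 => rw [map_add, LinearMap.add_apply, h1, h2, add_zero]
    | smul c v _ h1 => rw [map_smul, LinearMap.smul_apply, h1, smul_zero]
  obtain ⟨p, hp⟩ := Z.exists_isCompl
  let P := Z.projectionOnto p hp
  have hP : ∀ u ∈ Z, ((P u : Z) : V) = u := by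
    intro u hu
    have := Submodule.projectionOnto_apply_left hp ⟨u, hu⟩
    exact congrArg Subtype.val this
  have hmem : ∀ a b, m a b ∈ Z := fun a b => Submodule.subset_span ⟨(a, b), rfl⟩
  refine ⟨Z.subtype.comp P, ?_, ?_⟩
  · intro x
    rw [LinearMap.comp_apply, LinearMap.comp_apply, Submodule.subtype_apply]
    rw [Submodule.subtype_apply, hP _ (P x).2]
  · intro x
    rw [LinearMap.comp_apply, LinearMap.comp_apply, Submodule.subtype_apply,
      Submodule.subtype_apply, hP _ (hmem _ _)]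
    refine ⟨hZZ _ (hmem _ _) _ (P x).2, ?_⟩
    rw [hZZ _ (P x).2 _ (P x).2, zero_add]

theorem exists_of_finrank_le_four [Infinite k] [FiniteDimensional k V] (h2 : (2 : k) ≠ 0)
    (hm : IsFourAlgebra m) (hV : finrank k V ≤ 4) : ∃ Ω, IsBernstein m Ω := by
  have ho := id_odd h2 hm
  have he := id_even h2 hm ho
  have hl := id_lin h2 hm he
  have hs := sq_zero h2 hm ho hl hV
  apply exists_of_sq_zero
  have h1 : ∀ a b c, m (m a b) (m a c) = 0 := by
    intro a b c
    have h := hs a (b + c)
    simp only [map_add, LinearMap.add_apply, hm.1 (m a c) (m a b), hs a b, hs a c, zero_add,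
      add_zero] at h
    apply smul_right_injective V h2
    simp only [smul_zero]
    rw [two_smul]
    exact h
  have h3 : ∀ a b c, m (m a a) (m b c) = 0 := by
    intro a b c
    have h := hl a b c
    rwa [h1, smul_zero, zero_add] at h
  intro a b c d
  have h := h3 (a + b) c d
  simp only [map_add, LinearMap.add_apply, hm.1 b a, h3, zero_add, add_zero] at h
  apply smul_right_injective V h2
  simp only [smul_zero]
  rw [two_smul]
  exact h

end exist

/-! ### No operator in dimension at least seven -/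

section none

/-- the product -/
def pr {k : Type*} [Field k] (x y : Fin 7 → k) : Fin 7 → k :=
  ![0, 0, x 0 * y 0, x 0 * y 1 + x 1 * y 0, x 1 * y 1, -2 * (x 2 * y 4 + x 4 * y 2) + x 3 * y 3,
    x 0 * y 2 + x 2 * y 0]

theorem none_seven (k : Type*) [Field k] (h2 : (2 : k) ≠ 0) :
    ∃ m : (Fin 7 → k) →ₗ[k] (Fin 7 → k) →ₗ[k] (Fin 7 → k),
      IsFourAlgebra m ∧ ¬ ∃ Ω, QuadraticIdentities m Ω := by
  refine ⟨LinearMap.mk₂ k pr ?_ ?_ ?_ ?_, ⟨fun x y => ?_, fun x => ?_⟩, ?_⟩
  iterate 4 (intros; ext i; fin_cases i <;> simp [pr] <;> ring)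
  · ext i; fin_cases i <;> simp [pr] <;> ring
  · ext i; fin_cases i <;> simp [pr]; ring
  · rintro ⟨Ω, h⟩
    have h1 := congrFun (h (Pi.single 0 1)).1 6
    have h3 := congrFun (h (Pi.single 0 1)).2 2
    have h4 := congrFun (h (Pi.single 1 1)).1 5
    have h5 := congrFun (h (Pi.single 1 1 + Pi.single 2 1)).1 5
    have e : pr (Pi.single 0 1) (Pi.single 0 1) = (Pi.single 2 1 : Fin 7 → k) := by
      ext i; fin_cases i <;> simp [pr]
    simp only [LinearMap.mk₂_apply] at h1 h3 h4 h5
    rw [e] at h1 h3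
    rw [map_add] at h5
    simp [pr, h2] at h1 h3 h4 h5
    simp [h1, h4] at h3 h5
    simp [h3] at h5

theorem none_of_le (k : Type*) [Field k] (h2 : (2 : k) ≠ 0) (n : ℕ) (hn : 7 ≤ n) :
    ∃ m : (Fin n → k) →ₗ[k] (Fin n → k) →ₗ[k] (Fin n → k),
      IsFourAlgebra m ∧ ¬ ∃ Ω, QuadraticIdentities m Ω := by
  obtain ⟨m, hm, hno⟩ := none_seven k h2
  let π : (Fin n → k) →ₗ[k] (Fin 7 → k) := LinearMap.funLeft k k (Fin.castLE hn)
  obtain ⟨ι, hι⟩ : ∃ ι : (Fin 7 → k) →ₗ[k] (Fin n → k), π.comp ι = LinearMap.id := by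
    apply π.exists_rightInverse_of_surjective
    rw [LinearMap.range_eq_top]
    exact LinearMap.funLeft_surjective_of_injective k k _ (Fin.castLE_injective hn)
  have hπ : ∀ x, π (ι x) = x := fun x => LinearMap.congr_fun hι x
  have hinj : Function.Injective ι := fun a b h => by rw [← hπ a, ← hπ b, h]
  let m' : (Fin n → k) →ₗ[k] (Fin n → k) →ₗ[k] (Fin n → k) := (m.compl₁₂ π π).compr₂ ι
  have hm' : ∀ x y, m' x y = ι (m (π x) (π y)) := fun x y => rfl
  refine ⟨m', ⟨fun x y => ?_, fun x => ?_⟩, ?_⟩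
  · rw [hm', hm', hm.1]
  · rw [hm', hm', hπ, hm.2, map_zero]
  · rintro ⟨Ω, hΩ⟩
    apply hno
    refine ⟨(π.comp Ω).comp ι, fun x => ⟨?_, ?_⟩⟩
    · have h := (hΩ (ι x)).1
      rw [hm', hm', hπ, hπ] at h
      apply hinj
      rw [map_zero]
      exact h
    · have h := congrArg π (hΩ (ι x)).2
      rw [map_add, hm', hm', hπ, hπ, hπ] at h
      exact h

end none

/-! ### Many classes in dimension at least four -/

section many

variable {k : Type*} [Field k]

def mul4 (k : Type*) [Field k] : (Fin 4 → k) →ₗ[k] (Fin 4 → k) →ₗ[k] (Fin 4 → k) :=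
  LinearMap.mk₂ k (fun p q => ![0, p 0 * q 0, 0, 0])
    (fun _ _ _ => by ext i; fin_cases i <;> simp; ring)
    (fun _ _ _ => by ext i; fin_cases i <;> simp; ring)
    (fun _ _ _ => by ext i; fin_cases i <;> simp; ring)
    (fun _ _ _ => by ext i; fin_cases i <;> simp; ring)

def diag (a b c : k) : (Fin 4 → k) →ₗ[k] (Fin 4 → k) :=
  Matrix.toLin' (Matrix.diagonal ![a, 1 - a, b, c])

lemma diag_BO (a b c : k) (ha : a * a = a) (hb : b * b = b) (hc : c * c = c) :
    IsBernstein (mul4 k) (diag a b c) := by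
  refine ⟨fun x => ?_, fun x => ⟨?_, ?_⟩⟩
  · rw [diag, ← LinearMap.comp_apply, ← Matrix.toLin'_mul, Matrix.diagonal_mul_diagonal]
    congr 3
    ext i; fin_cases i <;> simp [ha, hb, hc]
    linear_combination ha
  · ext i; fin_cases i <;> simp [mul4]
  · ext i; fin_cases i <;> simp [mul4, diag, Matrix.mulVec_diagonal]
    linear_combination (x 0 * x 0) * ha

lemma diag_inv {a b c a' b' c' : k} (h : Equivalent (mul4 k) (diag a b c) (diag a' b' c')) :
    a = a' ∧ b + c = b' + c' := by
  obtain ⟨f, hf, v, h, -⟩ := h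
  constructor
  · let x : Fin 4 → k := Pi.single 0 1
    have e : ∀ (a b c : k) (z : Fin 4 → k), diag a b c (mul4 k z z) = (1 - a) • mul4 k z z :=
      fun a b c z => by ext i; fin_cases i <;> simp [mul4, diag, Matrix.mulVec_diagonal]
    have e0 : ∀ z : Fin 4 → k, mul4 k (mul4 k z z) v = 0 := fun z => by
      ext i; fin_cases i <;> simp [mul4]
    have h1 := h (f (mul4 k (f.symm x) (f.symm x)))
    rw [f.symm_apply_apply, e, map_smul, hf, f.apply_symm_apply, e, e0] at h1
    have := congrFun h1 1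
    simp [mul4, x] at this
    exact this.symm
  · have h1 : diag a' b' c' = f.conj (diag a b c) -
        (2 : k) • Matrix.toLin' (Matrix.single 1 0 (v 0)) := by
      refine LinearMap.ext fun x => ?_
      rw [h x]
      congr 2
      ext i; fin_cases i <;> simp [mul4, Matrix.mulVec, dotProduct, Fin.sum_univ_four, mul_comm]
    have h2 := congrArg (LinearMap.trace k _) h1
    rw [map_sub, map_smul, LinearMap.trace_conj'] at h2
    simp [diag, Matrix.trace, Fin.sum_univ_four] at h2
    linear_combination -h2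

/-- The 4-algebra `(V, m)` has a set of `N` pairwise inequivalent Bernstein operators. -/
def HasClasses {V : Type*} [AddCommGroup V] [Module k V] (m : V →ₗ[k] V →ₗ[k] V)
    (S : Set (V →ₗ[k] V)) : Prop :=
  (∀ Ω ∈ S, IsBernstein m Ω) ∧ ∀ Ω ∈ S, ∀ Ω' ∈ S, Ω ≠ Ω' → ¬ Equivalent m Ω Ω'

theorem many_four (h2 : (2 : k) ≠ 0) :
    ∃ mul : (Fin 4 → k) →ₗ[k] (Fin 4 → k) →ₗ[k] (Fin 4 → k), IsFourAlgebra mul ∧
      ∃ S : Set ((Fin 4 → k) →ₗ[k] (Fin 4 → k)), HasClasses mul S ∧ S.encard = 6 := by
  let Ω : Fin 6 → (Fin 4 → k) →ₗ[k] (Fin 4 → k) :=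
    ![diag 0 0 0, diag 0 1 0, diag 0 1 1, diag 1 0 0, diag 1 1 0, diag 1 1 1]
  have hB : ∀ i, IsBernstein (mul4 k) (Ω i) := by
    intro i
    fin_cases i <;> exact diag_BO _ _ _ (by simp) (by simp) (by simp)
  have hE : ∀ i j, Equivalent (mul4 k) (Ω i) (Ω j) → i = j := by
    intro i j h
    have h11 : (1 : k) + 1 ≠ 0 := by rwa [one_add_one_eq_two]
    fin_cases i <;> fin_cases j <;> first
      | rfl
      | (have := diag_inv h; simp [h11, h11.symm] at this)
  have hrefl : ∀ Θ : (Fin 4 → k) →ₗ[k] (Fin 4 → k), Equivalent (mul4 k) Θ Θ := by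
    intro Θ
    refine ⟨LinearEquiv.refl k _, fun x y => rfl, 0, fun x => ?_, ?_⟩
    · simp
    · simp
  have hinj : Function.Injective Ω := by
    intro i j hij
    exact hE i j (hij ▸ hrefl _)
  refine ⟨mul4 k, ⟨fun x y => ?_, fun x => ?_⟩, Set.range Ω, ⟨?_, ?_⟩, ?_⟩
  · ext i; fin_cases i <;> simp [mul4, mul_comm]
  · ext i; fin_cases i <;> simp [mul4]
  · rintro _ ⟨i, rfl⟩
    exact hB i
  · rintro _ ⟨i, rfl⟩ _ ⟨j, rfl⟩ hne h
    exact hne (by rw [hE i j h])
  · rw [← Set.image_univ, hinj.encard_image, Set.encard_univ]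
    simp

theorem many_five {k : Type*} [Field k] [Infinite k] (h2 : (2 : k) ≠ 0) (n : ℕ) (hn : 5 ≤ n) :
    ∃ mul : (Fin n → k) →ₗ[k] (Fin n → k) →ₗ[k] (Fin n → k), IsFourAlgebra mul ∧
      ∃ S : Set ((Fin n → k) →ₗ[k] (Fin n → k)), HasClasses mul S ∧ S.Infinite := by
  open Pool.Agent.KS6_49.BO in
  refine ⟨mul hn, ⟨mul_comm' hn, mul_sq_sq hn⟩, Set.range (Om hn), ⟨?_, ?_⟩, ?_⟩
  · rintro _ ⟨a, rfl⟩
    refine ⟨fun x => LinearMap.congr_fun (Om_sq hn a) x, fun x => ⟨?_, ?_⟩⟩
    · exact mul_eq_zero_of hn _ _ (mul0 hn _ _) (mul1 hn _ _) (mul2 hn _ _)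
    · rw [Om_mul_zero, zero_add]
      exact Om_of_zero hn a _ (mul1 hn _ _) (mul2 hn _ _)
  · rintro _ ⟨a, rfl⟩ _ ⟨a', rfl⟩ hne ⟨f, hf, v₀, h3, -⟩
    exact hne (by rw [inequiv hn h2 a a' f hf v₀ h3])
  · apply Set.infinite_range_of_injective
    intro a a' haa
    have h1 : Om hn a (ey hn) (i0 hn) = Om hn a' (ey hn) (i0 hn) := by rw [haa]
    rw [Om0, Om0, ey0, ey1, ey2] at h1
    simpa using h1

end many

/-- **Theorem.** Let `k` be an infinite field of characteristic not two.
(1) If `n ≤ 4`, every 4-algebra structure on `k^n` has a Bernstein operator.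
(2) If `n ≥ 7`, some 4-algebra structure on `k^n` has no Bernstein operator (and there is not even
a linear map satisfying the two quadratic identities).
(3) If `n ≥ 4`, some 4-algebra structure on `k^n` has more than `n + 1` pairwise inequivalent
Bernstein operators, and infinitely many ones if `n ≥ 5`. -/
theorem result (k : Type*) [Field k] [Infinite k] (h2 : (2 : k) ≠ 0) (n : ℕ) :
    (n ≤ 4 → ∀ m : (Fin n → k) →ₗ[k] (Fin n → k) →ₗ[k] (Fin n → k), IsFourAlgebra m →
      ∃ Ω, IsBernstein m Ω) ∧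
    (7 ≤ n → ∃ m : (Fin n → k) →ₗ[k] (Fin n → k) →ₗ[k] (Fin n → k), IsFourAlgebra m ∧
      ¬ ∃ Ω, QuadraticIdentities m Ω) ∧
    (4 ≤ n → ∃ m : (Fin n → k) →ₗ[k] (Fin n → k) →ₗ[k] (Fin n → k), IsFourAlgebra m ∧
      ∃ S : Set ((Fin n → k) →ₗ[k] (Fin n → k)), (∀ Ω ∈ S, IsBernstein m Ω) ∧
        (∀ Ω ∈ S, ∀ Ω' ∈ S, Ω ≠ Ω' → ¬ Equivalent m Ω Ω') ∧
        ((n + 1 : ℕ) : ℕ∞) < S.encard ∧ (5 ≤ n → S.Infinite)) := by
  refine ⟨fun hn m hm => ?_, fun hn => none_of_le k h2 n hn, fun hn => ?_⟩
  · exact exists_of_finrank_le_four h2 hm (by simpa using hn)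
  · rcases Nat.lt_or_ge n 5 with h5 | h5
    · obtain rfl : n = 4 := by omega
      obtain ⟨m, hm, S, hS, h6⟩ := many_four (k := k) h2
      refine ⟨m, hm, S, hS.1, hS.2, ?_, fun h => absurd h (by omega)⟩
      rw [h6]
      norm_num
    · obtain ⟨m, hm, S, hS, h6⟩ := many_five h2 n h5
      refine ⟨m, hm, S, hS.1, hS.2, ?_, fun _ => h6⟩
      rw [Set.encard_eq_top_iff.2 h6]
      exact ENat.natCast_lt_top _

end Pool.Agent.Results.MP_be8152_al.DimensionRange
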